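import Pool.Agent.HCV.Chk3

set_option autoImplicit false

namespace HCV.Q9

/-- the six vertices of the hexagon, the first one repeated -/
def L0 : ℕ := 599707678149749917969351084360143151951132763342190836953825468215943034566733498352799507101632191741668506441476747709538221693287921699443570861082340705083593068832511396595532230248686201855014264231257603747264482424451658348364882453009361733137257146201757014698620199532438279912120180146731250190030653621231275707869279038247195245453983371616445357577504461368454144650733415251390798675682161191100616590730221566027042170347351771683672181354494648182318825105103883310733295511605047621152935588042947523652193793859936927237455214198610361530184693035894109168529692746391186246696685379624655320390445003670750878850870315836746457451817638510823713119848047800396961506916856232271268682167293724068356671687214307724114950715285089795543414608328836965171391016774627355471162393862435877779008745212384846014609213737836184239113856747772682811533042098085219330632465338404904897577651246290440256343494133586343984424238536707413791098665420447141780047378256827192972387214433805554377455515501572695803386255460935790533877441958780292922176282611453540881651021525754630186605706061930398741239291545471531745136876724492752541489991608521221142197939375554206547037940910130357996969449982256677436585410560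

end HCV.Q9
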